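import Pool.Agent.H500.LI2

set_option autoImplicit false
set_option linter.unusedSectionVars false

/-!
# Large residual images at a set of primes of density one

Let `E` be a number field, `S` a finite set of primes, and let `a p`, `d p` (`p ∉ S`) be algebraic integers
in `E`.  In the application to the question these are the traces and the determinants of the Frobenius
elements on the members `V_λ` of an `E`-rational family of two-dimensional representations of the Galois
group of `ℚ`.  We consider the residual representations attached to these data: homomorphisms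
`ρ : G_ℚ → GL_2(k)`, `k` a field containing the residue field of the prime `ℓ` of `E`, with open kernel,
unramified outside `S` and the residue characteristic `l` of `ℓ`, whose Frobenius elements at `p ∉ S`,
`p ≠ l`, have trace `a p` and determinant `d p` modulo `ℓ`.  Nothing is assumed about the restriction to the
decomposition group at `l` (no Hodge-Tate weights, no potential semistability) or at the primes in `S`.

Assume
* (not Eisenstein) for some primes `p ≠ q` outside `S` no root `x` of `X ^ 2 - a p X + d p` and no root `y` of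
  `X ^ 2 - a q X + d q` satisfy `x ^ N = p ^ b` and `y ^ N = q ^ b` with `N > 0`;
* (no complex multiplication) for each quadratic field unramified outside `S` (each open subgroup `U` of
  index two of the Galois group which contains the inertia groups outside `S`) there is an inert prime
  `p ∉ S` with `a p ≠ 0`.

Then, outside a set of primes `ℓ` of `E` of natural density zero, the image of each odd residual
representation over the residue field of `ℓ` is large: its order is divisible by `l`, and `ρ` is absolutely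
irreducible on each open normal subgroup of index prime to `l`, in particular on the Galois group of
`ℚ(ζ_l)`.  If the two polynomials in the first condition split over `E`, the same holds for all residual
representations, odd or not, over all fields `k`.

The definitions `IsResidual`, `Odd` and `Large` are in `Pool.Agent.H500.LIDef`.
-/

namespace Pool.Agent.Results.MP_b583a4_nt.LargeResidualImage

open NumberField IsDedekindDomain Pool.Agent.W569.FM Filter Topology Matrix
open Pool.Agent.W401.Cheb (dens)
open Pool.Agent.H500.LI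

/-- representations whose image is not large -/
theorem not_large {k : Type} [Field k] {l : ℕ} (hl : l.Prime) [CharP k l] (ρ : GF ℚ →* GL (Fin 2) k)
    (hρ : IsOpen (ρ.ker : Set (GF ℚ))) (h : ¬ Large ρ) :
    (∃ v : Fin 2 → k, v ≠ 0 ∧ ∀ g, ∃ c : k, (ρ g : Matrix (Fin 2) (Fin 2) k) *ᵥ v = c • v) ∨
      ¬ ringChar k ∣ Nat.card ρ.range := by
  by_contra hcon
  push Not at hcon
  obtain ⟨h1, h2⟩ := hcon
  have hrc : ringChar k = l := (ringChar.eq k l).symm ▸ rfl
  have hfin : Finite ρ.range := Pool.Agent.H500.Tr.finite_range ρ hρ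
  apply h
  refine ⟨h2, ?_⟩
  intro N hN _ hNi k' _ ι v hv hst
  refine large_of ι ρ hl ?_ (hrc ▸ h2) N hN (hrc ▸ hNi) hv hst
  rintro ⟨v, hv, hst⟩
  obtain ⟨g, hg⟩ := h1 v hv
  obtain ⟨c, hc⟩ := hst g
  exact hg c hc

theorem result {E : Type} [Field E] [NumberField E] (S : Finset ℕ) (a d : ℕ → 𝓞 E)
    {p q : ℕ} (hp : p.Prime) (hq : q.Prime) (hpq : p ≠ q) (hpS : p ∉ S) (hqS : q ∉ S)
    -- not Eisenstein
    (hrel : ∀ (x y : AlgebraicClosure E) (N b : ℕ), 0 < N →
      x ^ 2 - algebraMap E (AlgebraicClosure E) (a p) * x +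
        algebraMap E (AlgebraicClosure E) (d p) = 0 →
      y ^ 2 - algebraMap E (AlgebraicClosure E) (a q) * y +
        algebraMap E (AlgebraicClosure E) (d q) = 0 →
      ¬ (x ^ N = (p : AlgebraicClosure E) ^ b ∧ y ^ N = (q : AlgebraicClosure E) ^ b))
    -- no complex multiplication
    (hcm : ∀ U : Subgroup (GF ℚ), IsOpen (U : Set (GF ℚ)) → U.index = 2 →
      (∀ p : ℕ, p.Prime → p ∉ S → ∀ P : Ideal (OO ℚ), P.IsMaximal → (p : OO ℚ) ∈ P →
        ∀ τ, InInertia P τ → τ ∈ U) →
      ∃ p : ℕ, p.Prime ∧ p ∉ S ∧ a p ≠ 0 ∧ ∃ P : Ideal (OO ℚ), P.IsMaximal ∧ (p : OO ℚ) ∈ P ∧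
        ∃ σ, FrobAt p P σ ∧ σ ∉ U) :
    -- odd residual representations over the residue fields
    Tendsto (dens fun ℓ : HeightOneSpectrum (𝓞 E) =>
      ∃ (k : Type) (_ : Field k) (φ : 𝓞 E →+* k) (ρ : GF ℚ →* GL (Fin 2) k),
        Function.Surjective φ ∧ Odd ρ ∧ IsResidual S a d ℓ φ ρ ∧ ¬ Large ρ) atTop (𝓝 0) ∧
    -- all residual representations, if the polynomials at `p` and `q` split
    ((∃ α₁ α₂ β₁ β₂ : 𝓞 E, a p = α₁ + α₂ ∧ d p = α₁ * α₂ ∧ a q = β₁ + β₂ ∧ d q = β₁ * β₂) →
      Tendsto (dens fun ℓ : HeightOneSpectrum (𝓞 E) =>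
        ∃ (k : Type) (_ : Field k) (φ : 𝓞 E →+* k) (ρ : GF ℚ →* GL (Fin 2) k),
          IsResidual S a d ℓ φ ρ ∧ ¬ Large ρ) atTop (𝓝 0)) := by
  classical
  constructor
  · -- a number field containing the roots
    have hpoly : ∀ x y : 𝓞 E, ∃ s t : AlgebraicClosure E,
        algebraMap E (AlgebraicClosure E) x = s + t ∧ algebraMap E (AlgebraicClosure E) y = s * t := by
      intro x y
      obtain ⟨s, hs⟩ := IsAlgClosed.exists_root ((Polynomial.X ^ 2 -
        Polynomial.C (algebraMap E (AlgebraicClosure E) x) * Polynomial.X +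
        Polynomial.C (algebraMap E (AlgebraicClosure E) y) :
          Polynomial (AlgebraicClosure E))) (by
        have h1 : (Polynomial.X ^ 2 -
          Polynomial.C (algebraMap E (AlgebraicClosure E) x) * Polynomial.X +
          Polynomial.C (algebraMap E (AlgebraicClosure E) y) :
            Polynomial (AlgebraicClosure E)).degree = 2 := by compute_degree!
        rw [h1]
        norm_num)
      rw [Polynomial.IsRoot.def] at hs
      simp only [Polynomial.eval_add, Polynomial.eval_sub, Polynomial.eval_pow, Polynomial.eval_X,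
        Polynomial.eval_mul, Polynomial.eval_C] at hs
      exact ⟨s, algebraMap E (AlgebraicClosure E) x - s, by ring, by linear_combination hs⟩
    obtain ⟨s0, s1, hs1, hs2⟩ := hpoly (a p) (d p)
    obtain ⟨t0, t1, ht1, ht2⟩ := hpoly (a q) (d q)
    set F : IntermediateField E (AlgebraicClosure E) :=
      IntermediateField.adjoin E ({s0, s1, t0, t1} : Set (AlgebraicClosure E)) with hF
    have hfd : FiniteDimensional E F := by
      apply IntermediateField.finiteDimensional_adjoin
      intro x _
      exact Algebra.IsIntegral.isIntegral x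
    have hnf : NumberField F := NumberField.of_module_finite E F
    have hmemF : ∀ x ∈ ({s0, s1, t0, t1} : Set (AlgebraicClosure E)), x ∈ F := fun x hx =>
      IntermediateField.subset_adjoin E _ hx
    have hintE : ∀ x : 𝓞 E, IsIntegral ℤ (algebraMap E (AlgebraicClosure E) x) := fun x =>
      x.2.map (algebraMap E (AlgebraicClosure E)).toIntAlgHom
    have hintr : ∀ (x y : 𝓞 E) (s t : AlgebraicClosure E),
        algebraMap E (AlgebraicClosure E) x = s + t → algebraMap E (AlgebraicClosure E) y = s * t →
        IsIntegral ℤ s := by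
      intro x y s t h1 h2
      have h3 : s ^ 2 - algebraMap E (AlgebraicClosure E) x * s +
          algebraMap E (AlgebraicClosure E) y = 0 := by
        rw [h1, h2]
        ring
      -- `s` is integral over the integral closure
      have hx : algebraMap E (AlgebraicClosure E) x ∈ integralClosure ℤ (AlgebraicClosure E) :=
        hintE x
      have hy : algebraMap E (AlgebraicClosure E) y ∈ integralClosure ℤ (AlgebraicClosure E) :=
        hintE y
      have h4 : IsIntegral (integralClosure ℤ (AlgebraicClosure E)) s := by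
        refine ⟨Polynomial.X ^ 2 - Polynomial.C ⟨_, hx⟩ * Polynomial.X + Polynomial.C ⟨_, hy⟩, ?_, ?_⟩
        · monicity!
        · simp only [Polynomial.eval₂_add, Polynomial.eval₂_sub, Polynomial.eval₂_mul,
            Polynomial.eval₂_pow, Polynomial.eval₂_X, Polynomial.eval₂_C]
          exact h3
      exact isIntegral_trans (R := ℤ) (A := integralClosure ℤ (AlgebraicClosure E)) s h4
    -- integers of `F`
    have hmk : ∀ s : AlgebraicClosure E, s ∈ F → IsIntegral ℤ s →
        ∃ z : 𝓞 F, ((z : F) : AlgebraicClosure E) = s := by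
      intro s hs hi
      have h1 : IsIntegral ℤ (⟨s, hs⟩ : F) := by
        rw [← isIntegral_algHom_iff (F.val.restrictScalars ℤ) F.val.injective]
        exact hi
      exact ⟨⟨⟨s, hs⟩, h1⟩, rfl⟩
    obtain ⟨α0, hα0⟩ := hmk s0 (hmemF _ (by simp)) (hintr _ _ _ _ hs1 hs2)
    obtain ⟨α1, hα1⟩ := hmk s1 (hmemF _ (by simp)) (hintr (a p) (d p) s1 s0 (by rw [hs1, add_comm])
      (by rw [hs2, mul_comm]))
    obtain ⟨β0, hβ0⟩ := hmk t0 (hmemF _ (by simp)) (hintr _ _ _ _ ht1 ht2)
    obtain ⟨β1, hβ1⟩ := hmk t1 (hmemF _ (by simp)) (hintr (a q) (d q) t1 t0 (by rw [ht1, add_comm])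
      (by rw [ht2, mul_comm]))
    have hinjF : ∀ x y : 𝓞 F, ((x : F) : AlgebraicClosure E) = ((y : F) : AlgebraicClosure E) →
        x = y := fun x y h => RingOfIntegers.ext (Subtype.ext h)
    have hcoeE : ∀ x : 𝓞 E, (((algebraMap (𝓞 E) (𝓞 F) x : 𝓞 F) : F) : AlgebraicClosure E) =
        algebraMap E (AlgebraicClosure E) x := fun x => rfl
    refine main (F := F) S a d hp hq hpq hpS hqS ![α0, α1] ![β0, β1] ?_ ?_ ?_ ?_ ?_ hcm _ ?_
    · apply hinjF
      rw [hcoeE, hs1]
      simp [hα0, hα1]
    · apply hinjF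
      rw [hcoeE, hs2]
      simp [hα0, hα1]
    · apply hinjF
      rw [hcoeE, ht1]
      simp [hβ0, hβ1]
    · apply hinjF
      rw [hcoeE, ht2]
      simp [hβ0, hβ1]
    · rintro i j N b hN ⟨h1, h2⟩
      have e1 := congrArg (fun z : 𝓞 F => ((z : F) : AlgebraicClosure E)) h1
      have e2 := congrArg (fun z : 𝓞 F => ((z : F) : AlgebraicClosure E)) h2
      simp only [map_pow, map_natCast, SubmonoidClass.coe_pow, SubringClass.coe_natCast] at e1 e2
      have hx : ∀ i : Fin 2, ((((![α0, α1] : Fin 2 → 𝓞 F) i : 𝓞 F) : F) : AlgebraicClosure E) ^ 2 -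
          algebraMap E (AlgebraicClosure E) (a p) *
            ((((![α0, α1] : Fin 2 → 𝓞 F) i : 𝓞 F) : F) : AlgebraicClosure E) +
          algebraMap E (AlgebraicClosure E) (d p) = 0 := by
        intro i
        rw [hs1, hs2]
        fin_cases i
        · show ((α0 : F) : AlgebraicClosure E) ^ 2 - (s0 + s1) * ((α0 : F) : AlgebraicClosure E) +
            s0 * s1 = 0
          rw [hα0]
          ring
        · show ((α1 : F) : AlgebraicClosure E) ^ 2 - (s0 + s1) * ((α1 : F) : AlgebraicClosure E) +
            s0 * s1 = 0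
          rw [hα1]
          ring
      have hy : ∀ i : Fin 2, ((((![β0, β1] : Fin 2 → 𝓞 F) i : 𝓞 F) : F) : AlgebraicClosure E) ^ 2 -
          algebraMap E (AlgebraicClosure E) (a q) *
            ((((![β0, β1] : Fin 2 → 𝓞 F) i : 𝓞 F) : F) : AlgebraicClosure E) +
          algebraMap E (AlgebraicClosure E) (d q) = 0 := by
        intro i
        rw [ht1, ht2]
        fin_cases i
        · show ((β0 : F) : AlgebraicClosure E) ^ 2 - (t0 + t1) * ((β0 : F) : AlgebraicClosure E) +
            t0 * t1 = 0
          rw [hβ0]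
          ring
        · show ((β1 : F) : AlgebraicClosure E) ^ 2 - (t0 + t1) * ((β1 : F) : AlgebraicClosure E) +
            t0 * t1 = 0
          rw [hβ1]
          ring
      exact hrel _ _ N b hN (hx i) (hy j) ⟨e1, e2⟩
    · rintro ℓ ⟨k, _, φ, ρ, hφs, hodd, hρ, hnl⟩
      obtain ⟨l, hl, hlc, hcast, -⟩ := Pool.Agent.H500.Core.res_char (K := E) ℓ φ hρ.ker
      refine ⟨k, _, φ, ρ, hρ, ?_, not_large hl ρ hρ.continuous hnl⟩
      intro h2 _ _ v hv hst P _ σ _ c hc
      obtain ⟨cc, hcc, hdet⟩ := hodd
      have h20 : (2 : k) ≠ 0 := by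
        intro h
        apply h2
        rw [← hρ.ker, RingHom.mem_ker, map_natCast]
        exact_mod_cast h
      set ι : k →+* AlgebraicClosure k := algebraMap k (AlgebraicClosure k) with hι
      set M : Matrix (Fin 2) (Fin 2) k := (ρ cc : Matrix (Fin 2) (Fin 2) k) with hM
      have hM2 : M * M = 1 := by
        rw [hM, ← Units.val_mul, ← map_mul, hcc, map_one, Units.val_one]
      obtain ⟨c0, hc0⟩ := hst cc
      have hc02 : c0 * c0 = 1 := by
        have h3 : ((M * M).map ι) *ᵥ v = (c0 * c0) • v := by
          rw [Matrix.map_mul, ← Matrix.mulVec_mulVec, hc0, Matrix.mulVec_smul, hc0, smul_smul]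
        rw [hM2, Matrix.map_one _ (map_zero ι) (map_one ι), Matrix.one_mulVec] at h3
        have h4 : (c0 * c0 - 1) • v = 0 := by rw [sub_smul, one_smul, ← h3, sub_self]
        exact sub_eq_zero.1 ((smul_eq_zero.1 h4).resolve_right hv)
      -- the eigenvalue is `1` or `-1`
      obtain ⟨e, he, hee⟩ : ∃ e : k, c0 = ι e ∧ (e = 1 ∨ e = -1) := by
        have h3 : (c0 - 1) * (c0 + 1) = 0 := by linear_combination hc02
        rcases mul_eq_zero.1 h3 with h4 | h4
        · exact ⟨1, by rw [map_one]; linear_combination h4, Or.inl rfl⟩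
        · exact ⟨-1, by rw [map_neg, map_one]; linear_combination h4, Or.inr rfl⟩
      have hn0 : M - e • (1 : Matrix (Fin 2) (Fin 2) k) ≠ 0 := by
        intro h
        have h3 : M = e • (1 : Matrix (Fin 2) (Fin 2) k) := sub_eq_zero.1 h
        have h4 : M.det = e * e := by
          rw [h3, Matrix.det_fin_two]
          simp
        rw [hdet] at h4
        have h5 : e * e = 1 := by rcases hee with rfl | rfl <;> ring
        rw [h5] at h4
        apply h20
        linear_combination -h4
      have hkill : ((M - e • (1 : Matrix (Fin 2) (Fin 2) k)).map ι) *ᵥ v = 0 := by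
        have h3 : (M - e • (1 : Matrix (Fin 2) (Fin 2) k)).map ι =
            M.map ι - (ι e) • (1 : Matrix (Fin 2) (Fin 2) (AlgebraicClosure k)) := by
          ext i j
          simp only [Matrix.map_apply, Matrix.sub_apply, Matrix.smul_apply, smul_eq_mul, map_sub,
            map_mul, Matrix.one_apply]
          split_ifs <;> simp
        rw [h3, Matrix.sub_mulVec, Matrix.smul_mulVec, Matrix.one_mulVec, hc0, he, sub_self]
      obtain ⟨v0, hv0, -, s, hs, hsv⟩ := descend_line ι hn0 hv hkill
      obtain ⟨t0, ht0, -⟩ := descend_eig ι (M := (ρ σ : Matrix (Fin 2) (Fin 2) k)) hv0 (t := c) (by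
        rw [hsv, Matrix.mulVec_smul, hc, smul_comm])
      obtain ⟨x, hx⟩ := hφs t0
      exact ⟨x, by rw [ht0, hx]⟩
  · rintro ⟨α₁, α₂, β₁, β₂, hα1, hα2, hβ1, hβ2⟩
    have hinjE : Function.Injective (fun x : 𝓞 E => algebraMap E (AlgebraicClosure E) x) :=
      fun x y h => RingOfIntegers.ext ((algebraMap E (AlgebraicClosure E)).injective h)
    refine main (F := E) S a d hp hq hpq hpS hqS ![α₁, α₂] ![β₁, β₂] ?_ ?_ ?_ ?_ ?_ hcm _ ?_
    · exact hα1
    · exact hα2
    · exact hβ1
    · exact hβ2
    · rintro i j N b hN ⟨h1, h2⟩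
      have e1 := congrArg (fun z : 𝓞 E => algebraMap E (AlgebraicClosure E) z) h1
      have e2 := congrArg (fun z : 𝓞 E => algebraMap E (AlgebraicClosure E) z) h2
      simp only [map_pow, map_natCast] at e1 e2
      refine hrel _ _ N b hN ?_ ?_ ⟨e1, e2⟩
      · rw [hα1, hα2]
        fin_cases i <;> simp <;> ring
      · rw [hβ1, hβ2]
        fin_cases j <;> simp <;> ring
    · rintro ℓ ⟨k, _, φ, ρ, hρ, hnl⟩
      obtain ⟨l, hl, hlc, hcast, -⟩ := Pool.Agent.H500.Core.res_char (K := E) ℓ φ hρ.ker
      refine ⟨k, _, φ, ρ, hρ, ?_, not_large hl ρ hρ.continuous hnl⟩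
      intro _ hpℓ hqℓ v hv hst P hP σ hσ c hc
      set ι : k →+* AlgebraicClosure k := algebraMap k (AlgebraicClosure k) with hι
      have hroot := eig_root hv hc
      have htr : ((ρ σ : Matrix (Fin 2) (Fin 2) k).map ι).trace =
          ι (ρ σ : Matrix (Fin 2) (Fin 2) k).trace := by
        rw [Matrix.trace_fin_two, Matrix.trace_fin_two, map_add]
        rfl
      have hdt : ((ρ σ : Matrix (Fin 2) (Fin 2) k).map ι).det =
          ι (ρ σ : Matrix (Fin 2) (Fin 2) k).det := by
        rw [RingHom.map_det]
        rfl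
      rw [htr, hdt] at hroot
      have hfac : ∀ x y : 𝓞 E, (ρ σ : Matrix (Fin 2) (Fin 2) k).trace = φ (x + y) →
          (ρ σ : Matrix (Fin 2) (Fin 2) k).det = φ (x * y) → ∃ z : 𝓞 E, c = ι (φ z) := by
        intro x y h1 h2
        rw [h1, h2, map_add, map_mul, map_add, map_mul] at hroot
        have h3 : (c - ι (φ x)) * (c - ι (φ y)) = 0 := by linear_combination hroot
        rcases mul_eq_zero.1 h3 with h4 | h4
        · exact ⟨x, sub_eq_zero.1 h4⟩
        · exact ⟨y, sub_eq_zero.1 h4⟩
      rcases hσ with ⟨hpP, hfr⟩ | ⟨hqP, hfr⟩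
      · exact hfac α₁ α₂ (by rw [hρ.trace p hp hpS hpℓ P hP hpP σ hfr, hα1])
          (by rw [hρ.det p hp hpS hpℓ P hP hpP σ hfr, hα2])
      · exact hfac β₁ β₂ (by rw [hρ.trace q hq hqS hqℓ P hP hqP σ hfr, hβ1])
          (by rw [hρ.det q hq hqS hqℓ P hP hqP σ hfr, hβ2])

end Pool.Agent.Results.MP_b583a4_nt.LargeResidualImage
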